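import Pool.Agent.Q148.AN.Fm

/-! A consequence of the Elliott-Halberstam conjecture made unconditional for all but few shifts:
the part of a shifted prime `|a p - b|`, `a p + b` which is composed of large primes has the
distribution of the corresponding part of a random integer. -/

set_option autoImplicit false

namespace Pool.Agent.Results.MP_a78e8f_nt.AnatomyOfShiftedPrimes

open Finset

/-- the product of the prime powers `p ^ v_p(n)` over the primes `p > z` which divide `n` -/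
def roughPart (z n : ℕ) : ℕ := ∏ p ∈ n.primeFactors.filter (fun p => z < p), p ^ n.factorization p

/-- the primes up to `N` -/
def P (N : ℕ) : Finset ℕ := (Icc 1 N).filter Nat.Prime

theorem result (δ : ℝ) (hδ : 0 < δ) (hδ1 : δ ≤ 1) : ∃ C : ℝ, 0 < C ∧ ∀ κ : ℝ, 0 < κ → κ ≤ 1 / 8 → ∀ A : ℕ,
    ∃ N₀ : ℕ, ∀ N : ℕ, N₀ ≤ N → ∃ Ex : Finset ℕ, (Ex.card : ℝ) ≤ (N : ℝ) ^ (1 - κ) ∧
    ∀ b : ℕ, 1 ≤ b → (b : ℝ) ≤ N * Real.log N ^ A → b ∉ Ex → ∀ a : ℕ, 1 ≤ a → (a : ℝ) ≤ Real.log N ^ A →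
      a.Coprime b → ∀ G : ℕ → ℝ, (∀ m, |G m| ≤ 1) →
      |∑ p ∈ P N, G (roughPart ⌊(N : ℝ) ^ δ⌋₊ (a * p + b)) -
        ((P N).card : ℝ) / N * ∑ n ∈ Icc 1 N, G (roughPart ⌊(N : ℝ) ^ δ⌋₊ n)| ≤ C * κ * (P N).card ∧
      |∑ p ∈ P N, G (roughPart ⌊(N : ℝ) ^ δ⌋₊ (Nat.dist (a * p) b)) -
        ((P N).card : ℝ) / N * ∑ n ∈ Icc 1 N, G (roughPart ⌊(N : ℝ) ^ δ⌋₊ n)| ≤ C * κ * (P N).card :=
  Pool.Agent.Q148.AN.anat_forms δ hδ hδ1

end Pool.Agent.Results.MP_a78e8f_nt.AnatomyOfShiftedPrimes
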