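import Pool.Agent.Q120.EI.Main
import Pool.Agent.Q137.EI.EMIX
import Pool.Agent.Q137.EI.PIC
import Pool.Agent.Q211.EI.DYA
import Pool.Agent.Q211.EI.CONV
import Pool.Agent.Q120.EI.Mas
import Pool.Agent.Q120.EI.Asm
import Pool.Agent.Q120.EI.Prod

/-!
# The entropy frontier of the Elliott–Halberstam conjecture

`c` is a random residue system: `c k` is a random reduced residue class modulo `k + 1`, the joint law is arbitrary. The entropy
deficit `dfc k (pr μ c k)` of the modulus `k + 1` is `log φ(k + 1) - H(c k)` (nats).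
-/

set_option autoImplicit false

namespace Pool.Agent.Results.MP_a78e8f_nt.EntropyFrontier

open Finset MeasureTheory Filter Pool.Agent.Q93.EHC Pool.Agent.Q120.EI

theorem jobs : Jobs where
  mas := Pool.Agent.Q120.EI.t_MAS
  dya := Pool.Agent.Q211.EI.t_DYA
  emix := Pool.Agent.Q137.EI.t_EMIX
  asm := Pool.Agent.Q120.EI.t_ASM
  pic := Pool.Agent.Q137.EI.t_PIC
  prod := Pool.Agent.Q120.EI.t_PROD
  conv := Pool.Agent.Q211.EI.t_CONV

/-- (1) If for every `V` the entropy deficits of the moduli up to `R` have sum `O (R / log ^ V R)`, then almost surely the bound of the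
Elliott–Halberstam conjecture holds along the system at all levels `θ < 1`, even for the moduli up to `x / log ^ B x`.
(2) For every `V` and every `θ < 1` the conjecture at level `θ` (with the maximum over the classes) is equivalent to its almost sure
bound along all systems whose deficits up to `R` have sum at most `R / log ^ V R` for all `R`, and for this it suffices to consider the
systems in which some `c k` are constant, and the other ones uniform and independent. (3) The same for the full conjecture. -/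
theorem result :
    (∀ (Ω : Type) [MeasurableSpace Ω] (μ : Measure Ω) [IsProbabilityMeasure μ] (c : ∀ k : ℕ, Ω → (ZMod (k + 1))ˣ),
      (∀ k (a : (ZMod (k + 1))ˣ), MeasurableSet {ω | c k ω = a}) → Tiny μ c →
        (∀ U : ℕ, ∃ B : ℕ, ∀ᵐ ω ∂μ, ∃ x₀ : ℕ, ∀ x : ℕ, x₀ ≤ x → ∀ n : ℕ, (n : ℝ) * Real.log x ^ B ≤ x →
          ∑ k ∈ range n, |err x (k + 1) (c k ω : ZMod (k + 1))| ≤ x / Real.log x ^ U) ∧
        ∀ᵐ ω ∂μ, ∀ θ : ℝ, θ < 1 → Along θ (fun k => c k ω)) ∧
    (∀ θ : ℝ, θ < 1 → ∀ V : ℕ, (EHt θ ↔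
      ∀ (Ω : Type) [MeasurableSpace Ω] (μ : Measure Ω) [IsProbabilityMeasure μ] (c : ∀ k : ℕ, Ω → (ZMod (k + 1))ˣ)
        (S : Set ℕ) (b : ∀ k : ℕ, (ZMod (k + 1))ˣ), IsSys μ c S b → Atmost μ c V →
          ∀ᵐ ω ∂μ, Along θ (fun k => c k ω))) ∧
    (∀ V : ℕ, ((∀ θ : ℝ, θ < 1 → EHt θ) ↔
      ∀ (Ω : Type) [MeasurableSpace Ω] (μ : Measure Ω) [IsProbabilityMeasure μ] (c : ∀ k : ℕ, Ω → (ZMod (k + 1))ˣ)
        (S : Set ℕ) (b : ∀ k : ℕ, (ZMod (k + 1))ˣ), IsSys μ c S b → Atmost μ c V →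
          ∀ᵐ ω ∂μ, ∀ θ : ℝ, θ < 1 → Along θ (fun k => c k ω))) := by
  refine ⟨fun Ω _ μ _ c hc hT => below jobs hc hT, fun θ hθ V => frontier jobs hθ V, fun V => ⟨?_, ?_⟩⟩
  · intro h Ω _ μ _ c S b _ _
    exact ae_of_all _ (fun ω θ hθ => along_of_eht (h θ hθ) _)
  · intro h θ hθ
    refine (frontier jobs hθ V).2 (fun Ω _ μ _ c S b h1 h2 => ?_)
    filter_upwards [h Ω μ c S b h1 h2] with ω hω
    exact hω θ hθ

end Pool.Agent.Results.MP_a78e8f_nt.EntropyFrontier
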