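import Pool.Agent.Q259.MO.Mod2
import Pool.Agent.Q259.MO.Mod3

/-!
# Primes in almost all classes to EVERY modulus near the dilates of typical points

Definitions used (`Pool.Agent.Q259.AS`): `SelfSim μ`: `μ` is a self-similar measure `μ = ∑ p i * (f i)_* μ` of
finitely many maps `f i x = ρ i * x + t i` with `0 < |ρ i| < 1` and `p i > 0`, not all with the same fixed point (that
is, `μ` is not a point mass; overlaps are allowed and the ratios are arbitrary); `FourLp μ`: the Fourier transform of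
`μ` belongs to `L^q` for some `q < ∞` (for instance because it is `O(|t| ^ (-δ))` for some `δ > 0`).
From Mathlib: `ArithmeticFunction.vonMangoldt`: the function `Λ`; `Nat.totient`: Euler's function.
-/

set_option autoImplicit false

namespace Pool.Agent.Results.MP_a78e8f_nt.TypicalModuli

open MeasureTheory Filter Finset Pool.Agent.Q259.AS Pool.Agent.Q259.MO

/-- The reduced residue classes modulo `q`. -/
def classes (q : ℕ) : Finset ℕ := (range q).filter (fun a => Nat.Coprime a q)

/-- `ψ(X; q, a)`: the sum of `Λ(n)` over the `n ≤ X` with `n ≡ a (mod q)`, `0 ≤ a < q`. -/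
noncomputable def psi (X : ℝ) (q a : ℕ) : ℝ :=
  ∑ n ∈ (Icc 1 ⌊X⌋₊).filter (fun n => n % q = a), ArithmeticFunction.vonMangoldt n

/-- `E(X; q, a) = ψ(X; q, a) - X / φ(q)`. -/
noncomputable def E (X : ℝ) (q a : ℕ) : ℝ := psi X q a - X / (Nat.totient q : ℝ)

/-- `q` is equidistributed in almost all classes: (1) for ALL real `X` with `q ≤ X ≤ q log ^ κ q` the variance, the sum
of `E(X; q, a) ^ 2` over the reduced classes `a`, agrees with `X log q` up to a relative error of at most `ε`;
(2) for ALL `X` with `q log ^ (2 U + 2) q ≤ X ≤ q log ^ κ q` the sum of `|E(X; q, a)|` is at most `X / log ^ U q`;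
(3) for ALL `X` with `q log ^ (3 U + 2) q ≤ X ≤ q log ^ κ q` one has `|E(X; q, a)| ≤ (X / φ(q)) / log ^ U q` for all but
at most `φ(q) / log ^ U q` of the reduced classes `a`; (4) all but at most `δ φ(q)` of the `φ(q)` reduced classes contain a
prime `p ≤ (3 / δ) φ(q) log q`. -/
structure Equi (ε δ : ℝ) (κ U q : ℕ) : Prop where
  var : ∀ X : ℝ, (q : ℝ) ≤ X → X ≤ q * Real.log q ^ κ →
    |∑ a ∈ classes q, E X q a ^ 2 - X * Real.log q| ≤ ε * (X * Real.log q)
  mean : ∀ X : ℝ, q * Real.log q ^ (2 * U + 2) ≤ X → X ≤ q * Real.log q ^ κ →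
    ∑ a ∈ classes q, |E X q a| ≤ X / Real.log q ^ U
  most : ∀ X : ℝ, q * Real.log q ^ (3 * U + 2) ≤ X → X ≤ q * Real.log q ^ κ →
    (((classes q).filter (fun a => (X / Nat.totient q) / Real.log q ^ U < |E X q a|)).card : ℝ) ≤
      Nat.totient q / Real.log q ^ U
  least : (((classes q).card : ℝ) = Nat.totient q) ∧ ∃ C ⊆ classes q, (((classes q \ C).card : ℝ) ≤ δ * Nat.totient q) ∧
    ∀ a ∈ C, ∃ p : ℕ, p.Prime ∧ (p : ℝ) ≤ 3 / δ * (Nat.totient q * Real.log q) ∧ p % q = a

lemma equi_of (ε δ : ℝ) (hε : 0 < ε) (hδ : 0 < δ) (hδ1 : δ ≤ 1) (κ U : ℕ) : ∃ q₀ : ℕ, ∀ q : ℕ, q₀ ≤ q →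
    (∀ X : ℝ, (q : ℝ) ≤ X → X ≤ q * Real.log q ^ (κ + 2) →
      |Pool.Agent.TH894.PV.G X q - X * Real.log q| ≤ min ε (1 / 4) * (X * Real.log q)) → Equi ε δ κ U q := by
  classical
  obtain ⟨q₁, h1⟩ := noPr_small δ hδ hδ1
  have hlog : Tendsto (fun q : ℕ => Real.log (q : ℝ)) atTop atTop :=
    Real.tendsto_log_atTop.comp tendsto_natCast_atTop_atTop
  obtain ⟨q₂, h2⟩ := (hlog.eventually_ge_atTop 3).exists_forall_of_atTop
  refine ⟨q₁ + q₂ + 1, fun q hq hG => ?_⟩
  have hL := h2 q (by omega)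
  have hL1 : 1 ≤ Real.log (q : ℝ) := by linarith
  have hL0 : 0 < Real.log (q : ℝ) := by linarith
  have hφ0 : (0 : ℝ) < Nat.totient q := by exact_mod_cast Nat.totient_pos.2 (by omega)
  have hφq : (Nat.totient q : ℝ) ≤ q := by exact_mod_cast Nat.totient_le q
  have hq0 : (0 : ℝ) < q := lt_of_lt_of_le hφ0 hφq
  have hcard : ((classes q).card : ℝ) = (Nat.totient q : ℝ) := by
    unfold classes
    rw [Nat.totient_eq_card_coprime]
    congr 2
    ext a
    rw [mem_filter, mem_filter, Nat.coprime_comm]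
  have hκ : q * Real.log q ^ κ ≤ q * Real.log q ^ (κ + 2) :=
    mul_le_mul_of_nonneg_left (pow_le_pow_right₀ hL1 (by omega)) hq0.le
  have hup : ∀ X : ℝ, (q : ℝ) ≤ X → X ≤ q * Real.log q ^ κ → Pool.Agent.TH894.PV.G X q ≤ 2 * (X * Real.log q) := by
    intro X hX1 hX2
    have e1 := (abs_le.1 (hG X hX1 (hX2.trans hκ))).2
    have e2 : 0 ≤ X * Real.log q := mul_nonneg (hq0.le.trans hX1) hL0.le
    have e3 : min ε (1 / 4) * (X * Real.log q) ≤ 1 / 4 * (X * Real.log q) :=
      mul_le_mul_of_nonneg_right (min_le_right _ _) e2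
    linarith
  refine ⟨?_, ?_, ?_, hcard, ?_⟩
  · intro X hX1 hX2
    refine (hG X hX1 (hX2.trans hκ)).trans (mul_le_mul_of_nonneg_right (min_le_left _ _) ?_)
    exact mul_nonneg (hq0.le.trans hX1) hL0.le
  · intro X hX1 hX2
    have hqX : (q : ℝ) ≤ X := by
      refine le_trans ?_ hX1
      exact le_mul_of_one_le_right hq0.le (one_le_pow₀ hL1)
    have hX0 : 0 ≤ X := hq0.le.trans hqX
    have e1 := l1_of_var X q
    have e2 := hup X hqX hX2
    have e3 : (∑ a ∈ classes q, |E X q a|) ^ 2 ≤ (X / Real.log q ^ U) ^ 2 := by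
      refine le_trans e1 ?_
      calc (Nat.totient q : ℝ) * Pool.Agent.TH894.PV.G X q ≤ q * (2 * (X * Real.log q)) :=
            mul_le_mul hφq e2 (by unfold Pool.Agent.TH894.PV.G; exact sum_nonneg fun _ _ => sq_nonneg _) hq0.le
        _ ≤ (X / Real.log q ^ U) ^ 2 := by
          rw [div_pow, le_div_iff₀ (by positivity), ← pow_mul]
          calc q * (2 * (X * Real.log q)) * Real.log q ^ (U * 2)
              = X * (q * (2 * (Real.log q * Real.log q ^ (U * 2)))) := by ring
            _ ≤ X * (q * (Real.log q * (Real.log q * Real.log q ^ (U * 2)))) := by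
                apply mul_le_mul_of_nonneg_left _ hX0
                apply mul_le_mul_of_nonneg_left _ hq0.le
                exact mul_le_mul_of_nonneg_right (by linarith) (by positivity)
            _ = X * (q * Real.log q ^ (2 * U + 2)) := by ring
            _ ≤ X * X := mul_le_mul_of_nonneg_left hX1 hX0
            _ = X ^ 2 := by ring
    exact abs_le_of_sq_le_sq' e3 (by positivity) |>.2
  · intro X hX1 hX2
    have hqX : (q : ℝ) ≤ X := by
      refine le_trans ?_ hX1
      exact le_mul_of_one_le_right hq0.le (one_le_pow₀ hL1)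
    have hX0 : 0 < X := lt_of_lt_of_le hq0 hqX
    have e1 := dev_le X q ((X / Nat.totient q) / Real.log q ^ U) (by positivity)
    have e2 := hup X hqX hX2
    obtain ⟨Z, hZ⟩ : ∃ Z : ℝ, Z = (((classes q).filter
      (fun a => (X / Nat.totient q) / Real.log q ^ U < |E X q a|)).card : ℝ) := ⟨_, rfl⟩
    rw [← hZ]
    have e3 : Z * ((X / Nat.totient q) / Real.log q ^ U) ^ 2 ≤ 2 * (X * Real.log q) := by
      rw [hZ]
      exact e1.trans e2
    have e4 : 2 * (X * Real.log q) ≤
        (Nat.totient q / Real.log q ^ U) * ((X / Nat.totient q) / Real.log q ^ U) ^ 2 := by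
      have e5 : (Nat.totient q / Real.log q ^ U) * ((X / Nat.totient q) / Real.log q ^ U) ^ 2 =
          X ^ 2 / (Nat.totient q * Real.log q ^ (3 * U)) := by
        have : Real.log q ^ (3 * U) = (Real.log q ^ U) ^ 3 := by rw [← pow_mul, mul_comm]
        rw [this]
        field_simp
      rw [e5, le_div_iff₀ (by positivity)]
      calc 2 * (X * Real.log q) * (Nat.totient q * Real.log q ^ (3 * U))
          = X * (Nat.totient q * (2 * (Real.log q * Real.log q ^ (3 * U)))) := by ring
        _ ≤ X * (q * (Real.log q * (Real.log q * Real.log q ^ (3 * U)))) := by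
            apply mul_le_mul_of_nonneg_left _ hX0.le
            apply mul_le_mul hφq _ (by positivity) hq0.le
            exact mul_le_mul_of_nonneg_right (by linarith) (by positivity)
        _ = X * (q * Real.log q ^ (3 * U + 2)) := by ring
        _ ≤ X * X := mul_le_mul_of_nonneg_left hX1 hX0.le
        _ = X ^ 2 := by ring
    exact le_of_mul_le_mul_right (e3.trans e4) (by positivity)
  · have h3 := h1 q (by omega) (fun X hX1 hX2 => by
      have hX0 : 0 ≤ X * Real.log q := mul_nonneg (hq0.le.trans hX1) hL0.le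
      refine (hG X hX1 (hX2.trans ?_)).trans (mul_le_mul_of_nonneg_right (min_le_right _ _) hX0)
      exact mul_le_mul_of_nonneg_left (pow_le_pow_right₀ hL1 (by omega)) hq0.le)
    refine ⟨(classes q) \ noPr (3 / δ * (Nat.totient q * Real.log q)) q, Finset.sdiff_subset, ?_, ?_⟩
    · refine le_trans ?_ h3
      have : classes q \ (classes q \ noPr (3 / δ * (Nat.totient q * Real.log q)) q) ⊆
          noPr (3 / δ * (Nat.totient q * Real.log q)) q := by
        intro a ha
        rw [Finset.mem_sdiff, Finset.mem_sdiff] at ha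
        by_contra hcon
        exact ha.2 ⟨ha.1, hcon⟩
      exact_mod_cast Finset.card_le_card this
    · intro a ha
      rw [Finset.mem_sdiff] at ha
      by_contra hcon
      apply ha.2
      exact mem_filter.2 ⟨ha.1, hcon⟩

/-- Let `μ` be a probability measure on the line which is self-similar and not a point mass, or whose Fourier
transform belongs to some `L^q`, `q < ∞`. Let `a 1, a 2, ...` be arbitrary positive real numbers with
`log (a k) ≥ k ^ ρ` for large `k`, where `ρ > 0`, and let `Y k` be arbitrary sets of at most `k ^ T` real numbers `y`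
with `|y| ≤ B a k`. Then `μ`-almost every `x` has the following property. For all `ε > 0`, `0 < δ ≤ 1`, `A`, `κ`, `U`,
for all large `k`, all `y` in `Y k` and EVERY integer `q ≥ a k / log (a k) ^ A` with
`|q - (a k * x + y)| ≤ log (a k) ^ A`, the primes are equidistributed in almost all classes modulo `q` in the sense of
`Equi ε δ κ U q` above. -/
theorem result (μ : Measure ℝ) [IsProbabilityMeasure μ] (hμ : SelfSim μ ∨ FourLp μ) (a : ℕ → ℝ) (ρ : ℝ) (hρ : 0 < ρ)
    (ha : ∀ᶠ k : ℕ in atTop, 0 < a k ∧ (k : ℝ) ^ ρ ≤ Real.log (a k)) (B T : ℕ) (Y : ℕ → Finset ℝ)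
    (hY : ∀ᶠ k : ℕ in atTop, (Y k).card ≤ k ^ T ∧ ∀ y ∈ Y k, |y| ≤ B * a k) :
    ∀ᵐ x ∂μ, ∀ ε δ : ℝ, 0 < ε → 0 < δ → δ ≤ 1 → ∀ A κ U : ℕ, ∀ᶠ k : ℕ in atTop, ∀ y ∈ Y k, ∀ q : ℕ,
      a k / Real.log (a k) ^ A ≤ q → |(q : ℝ) - (a k * x + y)| ≤ Real.log (a k) ^ A → Equi ε δ κ U q := by
  filter_upwards [as_mod μ hμ a ρ hρ ha B T Y hY] with x hx ε δ hε hδ hδ1 A κ U
  obtain ⟨q₀, hq₀⟩ := equi_of ε δ hε hδ hδ1 κ U
  have hbig : ∀ᶠ k : ℕ in atTop, (q₀ : ℝ) ≤ a k / Real.log (a k) ^ A := by
    have e1 : Tendsto (fun k : ℕ => Real.log (a k)) atTop atTop := by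
      have e0 : Tendsto (fun k : ℕ => (k : ℝ) ^ ρ) atTop atTop := (tendsto_rpow_atTop hρ).comp tendsto_natCast_atTop_atTop
      exact tendsto_atTop_mono' _ (ha.mono fun k h => h.2) e0
    have e2 : Tendsto (fun t : ℝ => Real.exp t / t ^ A) atTop atTop := Real.tendsto_exp_div_pow_atTop A
    filter_upwards [(e2.comp e1).eventually_ge_atTop (q₀ : ℝ), ha] with k h h'
    simp only [Function.comp, Real.exp_log h'.1] at h
    exact h
  filter_upwards [hx (min ε (1 / 4)) (lt_min hε (by norm_num)) A (κ + 2), hbig] with k hk hb y hy q hq1 hq2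
  exact hq₀ q (by exact_mod_cast hb.trans hq1) (fun X hX1 hX2 => hk y hy q hq1 hq2 X hX1 hX2)

end Pool.Agent.Results.MP_a78e8f_nt.TypicalModuli
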