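import Pool.Agent.Q259.AS.LevA

/-!
# Levels of distribution `a / exp (log log a) ^ 3` for residues near the dilates of typical points

Definitions used (`Pool.Agent.Q259.AS`): `SelfSim μ`: `μ` is a self-similar measure `μ = ∑ p i * (f i)_* μ` of
finitely many maps `f i x = ρ i * x + t i` with `0 < |ρ i| < 1` and `p i > 0`, not all with the same fixed point (that
is, `μ` is not a point mass; overlaps are allowed and the ratios are arbitrary); `FourLp μ`: the Fourier transform of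
`μ` belongs to `L^q` for some `q < ∞` (for instance because it is `O(|t| ^ (-δ))` for some `δ > 0`).
From Mathlib: `ArithmeticFunction.vonMangoldt`: the function `Λ`; `Nat.totient`: Euler's function.
-/

set_option autoImplicit false

namespace Pool.Agent.Results.MP_a78e8f_nt.TypicalResidues

open MeasureTheory Filter Finset Pool.Agent.Q259.AS

/-- `E(z; m, n) = ψ(z; m, n) - z / φ(m)`, where `ψ(z; m, n)` is the sum of `Λ(u)` over the `u ≤ z` with
`u ≡ n (mod m)`. -/
noncomputable def E (z m n : ℕ) : ℝ :=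
  ∑ u ∈ (Icc 1 z).filter (fun u : ℕ => u ≡ n [MOD m]), ArithmeticFunction.vonMangoldt u - (z : ℝ) / Nat.totient m

/-- `τ(m)`: the number of the divisors of `m`. -/
noncomputable def τ (m : ℕ) : ℝ := m.divisors.card

/-- The level `a / exp ((log log a) ^ 3)`, which is `a ^ (1 - o(1))`. -/
noncomputable def level (a : ℝ) : ℝ := a / Real.exp (Real.log (Real.log a) ^ 3)

/-- The sum of `λ(m) E(z(m); m, n)` over the `m ≤ Q` coprime to `n`. -/
noncomputable def weighted (lam : ℕ → ℝ) (z : ℕ → ℕ) (Q : ℝ) (n : ℕ) : ℝ :=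
  ∑ m ∈ (Icc 1 ⌊Q⌋₊).filter (fun m : ℕ => n.Coprime m), lam m * E (z m) m n

/-- Let `μ` be a probability measure on the line which is self-similar and not a point mass, or which has a Fourier
transform which belongs to some `L^q`, `q < ∞`. Let `a 1, a 2, ...` be positive real numbers with
`log (a k) ≥ k ^ ρ` for large `k`, where `ρ > 0`, and let `Y k` be arbitrary sets of at most `k ^ T` real numbers `y`
with `|y| ≤ B a k`. Let `L k` be arbitrary sets of at most `log (a k) ^ κ` pairs `(λ, ζ)` of weights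
`λ(m)`, `|λ(m)| ≤ (τ(m) log (a k)) ^ κ`, and of functions `ζ(m) ≤ B a k`.

Then almost every point `x` with respect to `μ` has the following property. For all `A` and `U`, for all large `k`,
all `y` in `Y k`, all integers `n ≥ 1` with `|n - (a k * x + y)| ≤ log (a k) ^ A` and all `(λ, ζ)` in `L k` the sum of
`λ(m) E(ζ(m); m, n)`, and the sums of `λ(m) E(z; m, n)` for ALL `z ≤ B a k`, over all the
`m ≤ a k / exp ((log log (a k)) ^ 3)` coprime to `n`, are at most `a k / log (a k) ^ U` in absolute value. -/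
theorem result (B T κ : ℕ) (μ : Measure ℝ) [IsProbabilityMeasure μ] (hμ : SelfSim μ ∨ FourLp μ) (a : ℕ → ℝ) (ρ : ℝ)
    (hρ : 0 < ρ) (ha : ∀ᶠ k : ℕ in atTop, 0 < a k ∧ (k : ℝ) ^ ρ ≤ Real.log (a k))
    (Y : ℕ → Finset ℝ) (hY : ∀ᶠ k : ℕ in atTop, (Y k).card ≤ k ^ T ∧ ∀ y ∈ Y k, |y| ≤ B * a k)
    (L : ℕ → Finset ((ℕ → ℝ) × (ℕ → ℕ))) (hL : ∀ᶠ k : ℕ in atTop, ((L k).card : ℝ) ≤ Real.log (a k) ^ κ ∧
      ∀ l ∈ L k, ∀ m, |l.1 m| ≤ (τ m * Real.log (a k)) ^ κ ∧ (l.2 m : ℝ) ≤ B * a k) :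
    ∀ᵐ x ∂μ, ∀ A U : ℕ, ∀ᶠ k : ℕ in atTop, ∀ y ∈ Y k, ∀ n : ℕ, 1 ≤ n →
      |(n : ℝ) - (a k * x + y)| ≤ Real.log (a k) ^ A → ∀ l ∈ L k,
      |weighted l.1 l.2 (level (a k)) n| ≤ a k / Real.log (a k) ^ U ∧
      ∀ z : ℕ, (z : ℝ) ≤ B * a k → |weighted l.1 (fun _ => z) (level (a k)) n| ≤ a k / Real.log (a k) ^ U := by
  classical
  obtain ⟨B', hB'⟩ : ∃ B', B' = B + 1 := ⟨_, rfl⟩
  have hB1 : 1 ≤ B' := by omega
  have hBr : (B' : ℝ) = B + 1 := by rw [hB']; push_cast; ring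
  obtain ⟨H, hH⟩ : ∃ H : ℕ → ℕ, H = fun k => ⌈((B' : ℝ) + 1) * a k⌉₊ := ⟨_, rfl⟩
  have h1 := as_levels κ κ μ hμ a ρ hρ ha (B' + 2) T Y
    (by
      filter_upwards [hY, ha] with k h h2
      refine ⟨h.1, fun y hy => (h.2 y hy).trans (mul_le_mul_of_nonneg_right ?_ h2.1.le)⟩
      push_cast
      linarith)
    H (fun k => ⌊a k / Real.exp (Real.log (Real.log (a k)) ^ 3)⌋₊)
    (by
      filter_upwards [sizes_ev a ρ hρ ha ((B' : ℝ) + 2)] with k hs
      obtain ⟨g1, g2, g3, g4⟩ := size_cmp B' (a k) hs.2.2 hs.2.1 hs.1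
      rw [hH]
      have hB0 : (0 : ℝ) ≤ B' := Nat.cast_nonneg B'
      have ha1 := hs.2.2
      push_cast
      constructor
      · nlinarith
      · exact g2)
    (by
      filter_upwards [level_cmp a ρ hρ ha B' hB1] with k h
      rw [hH]
      exact h)
    (fun k => {l // l ∈ L k}) (fun k l => l.1.1) (fun k l => l.1.2)
    (by
      filter_upwards [hL, sizes_ev a ρ hρ ha ((B' : ℝ) + 2)] with k h hs
      obtain ⟨g1, g2, g3, g4⟩ := size_cmp B' (a k) hs.2.2 hs.2.1 hs.1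
      rw [Fintype.card_coe, hH]
      exact h.1.trans (pow_le_pow_left₀ (by linarith [hs.2.1]) g3 _))
    (by
      filter_upwards [hL, sizes_ev a ρ hρ ha ((B' : ℝ) + 2)] with k h hs l m
      obtain ⟨g1, g2, g3, g4⟩ := size_cmp B' (a k) hs.2.2 hs.2.1 hs.1
      refine (h.2 l.1 l.2 m).1.trans ?_
      rw [hH, mul_comm]
      have hl0 : 0 ≤ Real.log (a k) := by linarith [hs.2.1]
      apply pow_le_pow_left₀ (mul_nonneg hl0 (show (0 : ℝ) ≤ (m.divisors.card : ℝ) from Nat.cast_nonneg _))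
      exact mul_le_mul_of_nonneg_right g3 (by positivity))
    (by
      filter_upwards [hL, sizes_ev a ρ hρ ha ((B' : ℝ) + 2)] with k h hs l m
      have h3 := (h.2 l.1 l.2 m).2
      rw [hH]
      refine (Nat.cast_le (α := ℝ)).1 ?_
      refine h3.trans (le_trans ?_ (Nat.le_ceil _))
      apply mul_le_mul_of_nonneg_right _ (by linarith [hs.2.2])
      linarith)
  filter_upwards [h1] with x hx A U
  filter_upwards [hx A (U + 1), sizes_ev a ρ hρ ha ((B' : ℝ) + 2)] with k h2 hs y hy n hn hnear l hl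
  obtain ⟨g1, g2, g3, g4⟩ := size_cmp B' (a k) hs.2.2 hs.2.1 hs.1
  obtain ⟨h3, h4⟩ := h2 y hy (n : ℤ) (by exact_mod_cast hn) (by push_cast; exact hnear) ⟨l, hl⟩
  rw [hH] at h3 h4
  refine ⟨?_, fun z hz => ?_⟩
  · exact le_trans h4 (g4 U)
  · refine le_trans (h3 z ?_) (g4 U)
    refine (Nat.cast_le (α := ℝ)).1 ?_
    refine hz.trans (le_trans ?_ (Nat.le_ceil _))
    apply mul_le_mul_of_nonneg_right _ (by linarith [hs.2.2])
    linarith

end Pool.Agent.Results.MP_a78e8f_nt.TypicalResidues
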